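import Mathlib
import Pool.Agent.Lib.MP_fefe6a_co.TwoPoly

namespace Pool.Agent.Results.MP_fefe6a_co.OrderTwo

open Pool.Agent.Lib.MP_fefe6a_co

/-- For every `N` there are a finite connected graph `Γ` whose largest real chromatic root is `2`
and a group `G` of two automorphisms, moving only two vertices, whose orbital chromatic polynomial
has a real root at least `N`. -/
theorem result : ∀ N : ℝ,
    ∃ (V : Type) (_ : Finite V) (Γ : SimpleGraph V) (G : Subgroup (Γ ≃g Γ))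
      (P Q : Polynomial ℝ) (r : ℝ),
      Γ.Connected ∧ Nat.card G = 2 ∧ (∃ v w : V, ∀ g ∈ G, ∀ z, z ≠ v → z ≠ w → g z = z) ∧
        IsChromaticPoly Γ P ∧ IsOrbitalChromaticPoly Γ G Q ∧
        IsGreatest {x : ℝ | P.IsRoot x} 2 ∧ Q.IsRoot r ∧ N ≤ r := by
  intro N
  obtain ⟨m, hm⟩ := exists_nat_ge N
  obtain ⟨M, hM, hP, hQ⟩ := Two.signs m
  have hq : 0 ≤ (Two.QQ (m + 7) (2 * M) ((2 * m + 9 + 2) * M)).eval ((m + 7 : ℕ) : ℝ) := by
    rw [Two.isOrb _ _ _ (m + 7) (by omega)]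
    positivity
  have hle : (m : ℝ) + 7 - 1 / 4 ≤ ((m + 7 : ℕ) : ℝ) := by push_cast; linarith
  obtain ⟨r, hr, hr0⟩ := intermediate_value_Icc hle
    (Polynomial.continuous _).continuousOn ⟨hQ.le, hq⟩
  refine ⟨Two.W (m + 7) (2 * M) ((2 * m + 9 + 2) * M), inferInstance, Two.gr _ _ _,
    Two.grp _ _ _, Two.PP _ _ _, Two.QQ _ _ _, r, Two.connected (by omega), Two.card_grp _ _ _,
    ⟨_, _, Two.grp_fix⟩, Two.isChrom _ _ _, Two.isOrb _ _ _,
    ⟨Two.root_two _ (by omega) (by omega), fun x hx => ?_⟩, hr0, by linarith [hr.1]⟩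
  by_contra h
  exact (hP x (not_le.1 h)).ne' hx

end Pool.Agent.Results.MP_fefe6a_co.OrderTwo
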